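import Pool.Agent.Helper3.Cop.Latin
import Pool.Agent.Helper3.Cop.Rate

set_option autoImplicit false

namespace Pool.Agent.Helper45.CR.Old.ExponentialRate

open Filter Topology Pool.Agent.Helper43.Copula

/-- With `s_n` the supremum of the measures of the sets on which some `n`-copula attains the lower
Frechet bound: `1 - n!/n^(n-1) ≤ s_n ≤ 1 - e^(-n) + 1/n!` for all `n ≥ 1`, and
`log (1 - s_n) / n → -1`. -/
theorem result :
    (∀ n : ℕ, 1 ≤ n →
      1 - (n.factorial : ℝ) / (n : ℝ) ^ (n - 1) ≤ (maxAgreement n).toReal ∧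
      (maxAgreement n).toReal ≤ 1 - Real.exp (-(n : ℝ)) + 1 / (n.factorial : ℝ)) ∧
    Tendsto (fun n : ℕ => Real.log (1 - (maxAgreement n).toReal) / (n : ℝ)) atTop (𝓝 (-1)) :=
  ⟨fun _ hn => ⟨Pool.Agent.Helper3.Cop.lower_bound hn, Pool.Agent.Helper3.Cop.upper_bound hn⟩,
    Pool.Agent.Helper3.Cop.rate⟩

end Pool.Agent.Helper45.CR.Old.ExponentialRate
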