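import Pool.Agent.Helper3.Cop.Bound

set_option autoImplicit false

namespace Pool.Agent.Helper45.CR.Old.LessThanOne

open Pool.Agent.Helper43.Copula

/-- For every `n ≥ 3` the supremum `s_n` of the measures of the sets on which some `n`-copula
attains the lower Frechet bound is less than `1`. -/
theorem result (n : ℕ) (hn : 3 ≤ n) : (maxAgreement n).toReal < 1 :=
  Pool.Agent.Helper3.Cop.lt_one hn

end Pool.Agent.Helper45.CR.Old.LessThanOne
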